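import Pool.Agent.K3h26.R6.Stm

/-!
# Separation of the non-lattice packing in every dimension
-/

set_option autoImplicit false

namespace Pool.Agent.K3h51.R6

open Pool.Agent.K3h26.R6

theorem half_le (k : ℤ) (δ : ℝ) (hδ : δ = 1 / 2 ∨ δ = -(1 / 2)) : 1 / 2 ≤ |(k : ℝ) + δ| := by
  rcases lt_trichotomy k 0 with h | h | h
  · have h1 : (k : ℝ) ≤ -1 := by
      have : k ≤ -1 := by omega
      exact_mod_cast this
    rw [le_abs]
    right
    rcases hδ with rfl | rfl <;> linarith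
  · rw [h, Int.cast_zero, zero_add]
    rcases hδ with rfl | rfl
    · rw [abs_of_nonneg (by norm_num)]
    · rw [abs_neg, abs_of_nonneg (by norm_num)]
  · have h1 : (1 : ℝ) ≤ k := by
      have : 1 ≤ k := by omega
      exact_mod_cast this
    rw [le_abs]
    left
    rcases hδ with rfl | rfl <;> linarith

/-- the shift of the coordinate `3` -/
noncomputable def c3 (j : ℤ) : ℝ := if j = 1 ∨ j = 2 then 1 / 2 else 0

/-- the shift of the other coordinates -/
noncomputable def c4 (j : ℤ) : ℝ := if j = 2 ∨ j = 3 then 1 / 2 else 0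

theorem c3_0 : c3 0 = 0 := if_neg (by omega)
theorem c3_1 : c3 1 = 1 / 2 := if_pos (by omega)
theorem c3_2 : c3 2 = 1 / 2 := if_pos (by omega)
theorem c3_3 : c3 3 = 0 := if_neg (by omega)
theorem c4_0 : c4 0 = 0 := if_neg (by omega)
theorem c4_1 : c4 1 = 0 := if_neg (by omega)
theorem c4_2 : c4 2 = 1 / 2 := if_pos (by omega)
theorem c4_3 : c4 3 = 1 / 2 := if_pos (by omega)

theorem par_one (a b c : ℤ) (h0 : a % 2 = c % 2) (h1 : b % 2 = c % 2)
    (hN : a.natAbs + b.natAbs + c.natAbs < 4) :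
    a.natAbs + b.natAbs + c.natAbs = 0 ∨ a.natAbs + b.natAbs + c.natAbs = 2 ∨
      a.natAbs + b.natAbs + c.natAbs = 3 := by omega

theorem par_two (a b c : ℤ) (h0 : a % 2 = c % 2) (h1 : b % 2 = c % 2)
    (hN : a.natAbs + b.natAbs + c.natAbs = 2) :
    (a.natAbs = 2 ∧ b.natAbs = 0 ∧ c.natAbs = 0) ∨ (a.natAbs = 0 ∧ b.natAbs = 2 ∧ c.natAbs = 0) ∨
      (a.natAbs = 0 ∧ b.natAbs = 0 ∧ c.natAbs = 2) := by
  have ha : a.natAbs ≤ 2 := by omega
  have hb : b.natAbs ≤ 2 := by omega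
  have hc : c.natAbs ≤ 2 := by omega
  have ha' : a % 2 = (a.natAbs : ℤ) % 2 := by omega
  have hb' : b % 2 = (b.natAbs : ℤ) % 2 := by omega
  have hc' : c % 2 = (c.natAbs : ℤ) % 2 := by omega
  rw [ha', hc'] at h0
  rw [hb', hc'] at h1
  clear ha' hb' hc'
  generalize a.natAbs = x at *
  generalize b.natAbs = y at *
  generalize c.natAbs = z at *
  interval_cases x <;> interval_cases y <;> interval_cases z <;> simp_all

theorem sum_two (a b c : ℤ) (hc : (a.natAbs = 2 ∧ b.natAbs = 0 ∧ c.natAbs = 0) ∨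
      (a.natAbs = 0 ∧ b.natAbs = 2 ∧ c.natAbs = 0) ∨
      (a.natAbs = 0 ∧ b.natAbs = 0 ∧ c.natAbs = 2)) :
    a + b + c = 2 ∨ a + b + c = -2 := by
  rcases hc with ⟨h0, h1, h2⟩ | ⟨h0, h1, h2⟩ | ⟨h0, h1, h2⟩ <;> omega

theorem sum_three (a b c : ℤ) (hN : a.natAbs + b.natAbs + c.natAbs = 3) :
    (a + b + c) % 2 = 1 := by omega

theorem idx_two (i j A T : ℤ) (hi : i = (A + T) % 4) (hj : j = A % 4) (hT : T = 2 ∨ T = -2) :
    (i = 0 ∧ j = 2) ∨ (i = 2 ∧ j = 0) ∨ (i = 1 ∧ j = 3) ∨ (i = 3 ∧ j = 1) := by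
  rcases hT with hT | hT <;> subst hT <;> omega

theorem idx_odd (i j A T : ℤ) (hi : i = (A + T) % 4) (hj : j = A % 4) (hT : T % 2 = 1) :
    (0 ≤ i ∧ i < 4) ∧ (0 ≤ j ∧ j < 4) ∧ (i + j) % 2 = 1 := by
  refine ⟨⟨?_, ?_⟩, ⟨?_, ?_⟩, ?_⟩ <;> omega

/-- one of the two shifts is a half -/
theorem shift_odd (i j : ℤ) (h : (0 ≤ i ∧ i < 4) ∧ (0 ≤ j ∧ j < 4) ∧ (i + j) % 2 = 1) :
    (c3 i - c3 j = 1 / 2 ∨ c3 i - c3 j = -(1 / 2)) ∨
      (c4 i - c4 j = 1 / 2 ∨ c4 i - c4 j = -(1 / 2)) := by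
  obtain ⟨⟨h1, h2⟩, ⟨h3, h4⟩, h5⟩ := h
  interval_cases i <;> interval_cases j <;>
    first
    | (exfalso; omega)
    | (left; left; simp only [c3_0, c3_1, c3_2, c3_3]; norm_num; done)
    | (left; right; simp only [c3_0, c3_1, c3_2, c3_3]; norm_num; done)
    | (right; left; simp only [c4_0, c4_1, c4_2, c4_3]; norm_num; done)
    | (right; right; simp only [c4_0, c4_1, c4_2, c4_3]; norm_num; done)

theorem shift_two (i j : ℤ) (h : (i = 0 ∧ j = 2) ∨ (i = 2 ∧ j = 0) ∨ (i = 1 ∧ j = 3) ∨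
      (i = 3 ∧ j = 1)) :
    (c3 i - c3 j = 1 / 2 ∨ c3 i - c3 j = -(1 / 2)) ∧
      (c4 i - c4 j = 1 / 2 ∨ c4 i - c4 j = -(1 / 2)) := by
  rcases h with ⟨rfl, rfl⟩ | ⟨rfl, rfl⟩ | ⟨rfl, rfl⟩ | ⟨rfl, rfl⟩
  · rw [c3_0, c3_2, c4_0, c4_2]
    exact ⟨Or.inr (by norm_num), Or.inr (by norm_num)⟩
  · rw [c3_0, c3_2, c4_0, c4_2]
    exact ⟨Or.inl (by norm_num), Or.inl (by norm_num)⟩
  · rw [c3_1, c3_3, c4_1, c4_3]
    exact ⟨Or.inl (by norm_num), Or.inr (by norm_num)⟩
  · rw [c3_1, c3_3, c4_1, c4_3]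
    exact ⟨Or.inr (by norm_num), Or.inl (by norm_num)⟩

section
variable {p : ℕ}

theorem val0 : ((0 : Fin (p + 5)) : ℕ) = 0 := rfl
theorem val1 : ((1 : Fin (p + 5)) : ℕ) = 1 := by
  show 1 % (p + 5) = 1
  exact Nat.mod_eq_of_lt (by omega)
theorem val2 : ((2 : Fin (p + 5)) : ℕ) = 2 := by
  show 2 % (p + 5) = 2
  exact Nat.mod_eq_of_lt (by omega)
theorem val3 : ((3 : Fin (p + 5)) : ℕ) = 3 := by
  show 3 % (p + 5) = 3
  exact Nat.mod_eq_of_lt (by omega)
theorem val4 : ((4 : Fin (p + 5)) : ℕ) = 4 := by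
  show 4 % (p + 5) = 4
  exact Nat.mod_eq_of_lt (by omega)

theorem ne_of_val {i j : Fin (p + 5)} (a b : ℕ) (hi : (i : ℕ) = a) (hj : (j : ℕ) = b)
    (hab : a ≠ b) : i ≠ j := by
  intro h
  apply hab
  rw [← hi, ← hj, h]

theorem tau0 (s : ℝ) (Z : Fin (p + 5) → ℤ) : tau s Z 0 = s * ((2 * Z 0 + Z 2 % 2 : ℤ) : ℝ) := by
  unfold tau
  rw [if_pos rfl]

theorem tau1 (s : ℝ) (Z : Fin (p + 5) → ℤ) : tau s Z 1 = s * ((2 * Z 1 + Z 2 % 2 : ℤ) : ℝ) := by
  unfold tau
  rw [if_neg (ne_of_val 1 0 val1 val0 (by norm_num)), if_pos rfl]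

theorem tau2 (s : ℝ) (Z : Fin (p + 5) → ℤ) : tau s Z 2 = s * (Z 2 : ℝ) := by
  unfold tau
  rw [if_neg (ne_of_val 2 0 val2 val0 (by norm_num)),
    if_neg (ne_of_val 2 1 val2 val1 (by norm_num)), if_pos rfl]

theorem tau3 (s : ℝ) (Z : Fin (p + 5) → ℤ) : tau s Z 3 = (Z 3 : ℝ) + c3 (idx Z) := by
  unfold tau
  rw [if_neg (ne_of_val 3 0 val3 val0 (by norm_num)),
    if_neg (ne_of_val 3 1 val3 val1 (by norm_num)),
    if_neg (ne_of_val 3 2 val3 val2 (by norm_num)), if_pos rfl]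
  rfl

theorem tauN (s : ℝ) (Z : Fin (p + 5) → ℤ) (i : Fin (p + 5)) (hi : 4 ≤ (i : ℕ)) :
    tau s Z i = (Z i : ℝ) + c4 (idx Z) := by
  unfold tau
  rw [if_neg (ne_of_val _ 0 rfl val0 (by omega)),
    if_neg (ne_of_val _ 1 rfl val1 (by omega)),
    if_neg (ne_of_val _ 2 rfl val2 (by omega)),
    if_neg (ne_of_val _ 3 rfl val3 (by omega))]
  rfl

theorem t_TAU : S_TAU := by
  intro p lam ε hl0 hl1 hε hε4 Z Z' hZ
  obtain ⟨s, hs⟩ : ∃ s : ℝ, s = 1 - ε / 2 := ⟨_, rfl⟩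
  rw [← hs]
  have hs0 : 0 < s := by linarith
  have hs78 : 7 / 8 ≤ s := by linarith
  obtain ⟨v, hv⟩ : ∃ v : Fin (p + 5) → ℝ, v = tau s Z - tau s Z' := ⟨_, rfl⟩
  rw [← hv]
  obtain ⟨D0, hD0⟩ : ∃ D : ℤ, D = 2 * Z 0 + Z 2 % 2 - (2 * Z' 0 + Z' 2 % 2) := ⟨_, rfl⟩
  obtain ⟨D1, hD1⟩ : ∃ D : ℤ, D = 2 * Z 1 + Z 2 % 2 - (2 * Z' 1 + Z' 2 % 2) := ⟨_, rfl⟩
  obtain ⟨D2, hD2⟩ : ∃ D : ℤ, D = Z 2 - Z' 2 := ⟨_, rfl⟩
  have v0 : v 0 = s * (D0 : ℝ) := by
    rw [hv, Pi.sub_apply, tau0, tau0, hD0]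
    push_cast
    ring
  have v1 : v 1 = s * (D1 : ℝ) := by
    rw [hv, Pi.sub_apply, tau1, tau1, hD1]
    push_cast
    ring
  have v2 : v 2 = s * (D2 : ℝ) := by
    rw [hv, Pi.sub_apply, tau2, tau2, hD2]
    push_cast
    ring
  have hp0 : D0 % 2 = D2 % 2 := by omega
  have hp1 : D1 % 2 = D2 % 2 := by omega
  have hi : idx Z = ((2 * Z' 0 + 2 * Z' 1 + 2 * (Z' 2 % 2) + Z' 2) + (D0 + D1 + D2)) % 4 := by
    have h1 : idx Z = (2 * Z 0 + 2 * Z 1 + 2 * (Z 2 % 2) + Z 2) % 4 := rfl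
    rw [h1]
    congr 1
    rw [hD0, hD1, hD2]
    ring
  have hi' : idx Z' = (2 * Z' 0 + 2 * Z' 1 + 2 * (Z' 2 % 2) + Z' 2) % 4 := rfl
  have habs : ∀ D : ℤ, |s * (D : ℝ)| = s * (D.natAbs : ℝ) := by
    intro D
    rw [abs_mul, abs_of_pos hs0, Nat.cast_natAbs, Int.cast_abs]
  have hn1 : n1 v = s * ((D0.natAbs + D1.natAbs + D2.natAbs : ℕ) : ℝ) := by
    unfold n1
    rw [v0, v1, v2, habs, habs, habs]
    push_cast
    ring
  have hmy0 : 0 ≤ my v := le_max_of_le_left (abs_nonneg _)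
  have hrh : 0 ≤ rh lam v := by
    unfold rh
    have := mul_nonneg hl0 hmy0
    linarith
  -- the last coordinates
  have hyy3 : v 3 = ((Z 3 - Z' 3 : ℤ) : ℝ) + (c3 (idx Z) - c3 (idx Z')) := by
    rw [hv, Pi.sub_apply, tau3, tau3]
    push_cast
    ring
  have hyyN : ∀ i : Fin (p + 5), 4 ≤ (i : ℕ) →
      v i = ((Z i - Z' i : ℤ) : ℝ) + (c4 (idx Z) - c4 (idx Z')) := by
    intro i hi4
    rw [hv, Pi.sub_apply, tauN _ _ _ hi4, tauN _ _ _ hi4]
    push_cast
    ring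
  by_cases hN4 : 4 ≤ D0.natAbs + D1.natAbs + D2.natAbs
  · -- far away
    left
    have h1 : (4 : ℝ) ≤ ((D0.natAbs + D1.natAbs + D2.natAbs : ℕ) : ℝ) := by exact_mod_cast hN4
    rw [hn1]
    have h2 := mul_le_mul_of_nonneg_left h1 hs0.le
    have h3 := mul_nonneg hε.le hrh
    linarith
  · rcases par_one D0 D1 D2 hp0 hp1 (not_le.1 hN4) with hN | hN | hN
    · -- the same base point
      right; right
      have hd0 : D0 = 0 := by clear hi hi' hD0 hD1 hD2; omega
      have hd1 : D1 = 0 := by clear hi hi' hD0 hD1 hD2; omega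
      have hd2 : D2 = 0 := by clear hi hi' hD0 hD1 hD2; omega
      have hidx : idx Z = idx Z' := by rw [hi, hi', hd0, hd1, hd2]; norm_num
      clear hi hi'
      rw [hd0] at hD0
      rw [hd1] at hD1
      rw [hd2] at hD2
      have hz2 : Z 2 = Z' 2 := by omega
      rw [hz2] at hD0 hD1
      have hz0 : Z 0 = Z' 0 := by omega
      have hz1 : Z 1 = Z' 1 := by omega
      obtain ⟨i, hne⟩ : ∃ i, Z i ≠ Z' i := by
        by_contra hcon
        push Not at hcon
        exact hZ (funext hcon)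
      have hi3 : 3 ≤ (i : ℕ) := by
        by_contra hcon
        have hlt : (i : ℕ) = 0 ∨ (i : ℕ) = 1 ∨ (i : ℕ) = 2 := by
          clear hD0 hD1 hD2
          omega
        rcases hlt with h | h | h
        · have : i = 0 := Fin.ext (by rw [h, val0])
          rw [this] at hne
          exact hne hz0
        · have : i = 1 := Fin.ext (by rw [h, val1])
          rw [this] at hne
          exact hne hz1
        · have : i = 2 := Fin.ext (by rw [h, val2])
          rw [this] at hne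
          exact hne hz2
      have hvi : v i = ((Z i - Z' i : ℤ) : ℝ) := by
        by_cases h3 : (i : ℕ) = 3
        · have hi3' : i = 3 := Fin.ext (by rw [h3, val3])
          rw [hi3', hyy3, hidx, sub_self, add_zero]
        · rw [hyyN i (by omega), hidx, sub_self, add_zero]
      have h1 : (1 : ℝ) ≤ |v i| := by
        rw [hvi, ← Int.cast_abs]
        have : 1 ≤ |Z i - Z' i| := Int.one_le_abs (sub_ne_zero.2 hne)
        exact_mod_cast this
      have hil : (i : ℕ) - 3 < p + 2 := by have := i.isLt; omega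
      have hyi : yy v ⟨(i : ℕ) - 3, hil⟩ = v i := by
        unfold yy
        congr 1
        apply Fin.ext
        simp only [Fin.val_succ]
        omega
      unfold nq
      rw [← hyi] at h1
      exact h1.trans (norm_le_pi_norm (yy v) _)
    · -- a square face
      right; left
      have hc := par_two D0 D1 D2 hp0 hp1 hN
      have hni : ni v = 2 * s := by
        unfold ni
        rw [v0, v1, v2, habs, habs, habs]
        rcases hc with ⟨h0, h1, h2⟩ | ⟨h0, h1, h2⟩ | ⟨h0, h1, h2⟩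
        · rw [h0, h1, h2]
          push_cast
          rw [mul_zero, max_self, max_eq_left (by positivity)]
          ring
        · rw [h0, h1, h2]
          push_cast
          rw [mul_zero, max_eq_left (by positivity : (0 : ℝ) ≤ s * 2),
            max_eq_right (by positivity : (0 : ℝ) ≤ s * 2)]
          ring
        · rw [h0, h1, h2]
          push_cast
          rw [mul_zero, max_eq_right (by positivity : (0 : ℝ) ≤ s * 2),
            max_eq_right (by positivity : (0 : ℝ) ≤ s * 2)]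
          ring
      obtain ⟨hb, hb'⟩ := shift_two _ _ (idx_two _ _ _ _ hi hi' (sum_two _ _ _ hc))
      have hall : ∀ l : Fin (p + 2), 1 / 2 ≤ |yy v l| := by
        intro l
        by_cases hl : (l : ℕ) = 0
        · have : yy v l = v 3 := by
            unfold yy
            congr 1
            apply Fin.ext
            rw [val3]
            simp only [Fin.val_succ]
            rw [hl]
          rw [this, hyy3]
          exact half_le _ _ hb
        · unfold yy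
          rw [hyyN _ (by simp only [Fin.val_succ]; omega)]
          exact half_le _ _ hb'
      have hsy : 1 / 2 ≤ sy v := by
        unfold sy
        rw [le_div_iff₀ (by positivity)]
        have h1 : ∑ _l : Fin (p + 2), (1 / 2 : ℝ) ≤ ∑ l, |yy v l| :=
          Finset.sum_le_sum fun l _ => hall l
        rw [Finset.sum_const, Finset.card_univ, Fintype.card_fin, nsmul_eq_mul] at h1
        push_cast at h1
        linarith
      rw [hni]
      have h3 := mul_le_mul_of_nonneg_left hsy hε.le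
      linarith
    · -- a hexagonal face
      left
      have hb := shift_odd _ _ (idx_odd _ _ _ _ hi hi' (sum_three _ _ _ hN))
      have hmy : 1 / 2 ≤ my v := by
        rcases hb with hb | hb
        · refine le_max_of_le_left ?_
          rw [hyy3]
          exact half_le _ _ hb
        · refine le_max_of_le_right ?_
          rw [hyyN 4 (by rw [val4])]
          exact half_le _ _ hb
      have h2 : 1 / 2 ≤ rh lam v := by
        unfold rh
        have := mul_le_mul_of_nonneg_left hmy hl0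
        linarith
      have h3 := mul_le_mul_of_nonneg_left h2 hε.le
      rw [hn1, hN]
      push_cast
      linarith

end

end Pool.Agent.K3h51.R6
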